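import Pool.Agent.Helper45.U4.St3
import Pool.Agent.Helper53.PB.Symp

/-!
# Project U4 (MP_a1f43d_co), module MNB: smallest sets in rank four
-/

set_option autoImplicit false

open Module Classical
open scoped LinearAlgebra.Projectivization

namespace Pool.Agent.Helper30.U4

open Pool.Agent.Helper45.U4 Pool.Agent.Helper53.PB

/-- points outside a blocking set in rank four -/
theorem nn_ge (h1 : StHRS) (h2 : StLOW) {F V : Type} [Field F] [AddCommGroup V] [Module F V]
    [FiniteDimensional F V] (φ : Form F V) (hs : Hs φ 4) {T : Finset (ℙ F V)} (hT : φ.toPolar.Block T)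
    (R : ℙ F V) (hR : φ.Sing R.rep) (hRT : R ∉ T) : 35 ≤ φ.toPolar.nn T R := by
  obtain ⟨w, hw⟩ := exists_pair φ hR R.rep_nonzero
  obtain ⟨T', hT', hle⟩ := (resForm_isRes φ hR hw).project hT rfl hRT
  exact (h2 (resForm φ hR hw) (h1 φ 3 hs R.rep w hR hw).1 T' hT').trans hle

theorem hMNB (h1 : StHRS) (h2 : StLOW) : StMNB := by
  intro F V _ _ _ _ _ _ φ
  refine ⟨fun T hT => ⟨fun R hR hRT => nn_ge h1 h2 φ hT.hs hT.block R hR hRT, fun z hz => ?_⟩, ?_⟩
  · obtain ⟨U, hU, hzU, huniq⟩ := Polar.exists_tangent hT.block hT.min hz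
    refine ⟨U, hU, hzU, ?_⟩
    unfold tt
    rw [Finset.card_eq_one]
    refine ⟨z, ?_⟩
    ext y
    rw [Finset.mem_filter, Finset.mem_singleton]
    constructor
    · rintro ⟨hy, hyU⟩
      exact huniq y hy hyU
    · rintro rfl
      exact ⟨hz, hzU⟩
  · intro hs T hT hcard
    obtain ⟨T', hT', hmin⟩ := exists_min (P := φ.toPolar) ⟨T, hT⟩
    refine ⟨T', hs, hT', ?_, hmin⟩
    have h3 := Polar.core (P := φ.toPolar) (r := 3) (m := 35) (by norm_num) hs.gen hT' hmin
      (fun R hR hRT => nn_ge h1 h2 φ hs hT' R hR hRT)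
    have h4 := hmin T hT
    rw [hs.card] at h3
    norm_num at h3
    omega

end Pool.Agent.Helper30.U4
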